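import Mathlib
import Pool.Agent.H331G.Step
import Pool.Agent.W5h16.PG.Lower

/-!
# Lower bounds for the pure greedy algorithm with respect to `λ`-quasi-orthogonal dictionaries

`gamma H m lam` is the supremum of the errors `‖f - G_m(f, D)‖` over all `lam`-quasi-orthogonal
dictionaries `D` in `H`, all `f` in `A_1(D)` and all realizations of the pure greedy algorithm.
`IsDictionary`, `IsQuasiOrthogonal`, `A1` and `IsGreedy` are defined in `Pool.Agent.H331G.Step`.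
-/

set_option autoImplicit false

open Pool.Agent.H331G Pool.Agent.W5h16.PG

namespace Pool.Agent.Results.MP_d42a57_an.LowerBounds

/-- The supremum of the error `‖f - G_m(f, D)‖ = ‖f_m‖` of the pure greedy algorithm after `m`
steps, over all `lam`-quasi-orthogonal dictionaries `D`, all `f = f 0` in `A_1(D)` and all
realizations. -/
noncomputable def gamma (H : Type) [NormedAddCommGroup H] [InnerProductSpace ℝ H] (m : ℕ)
    (lam : ℝ) : ENNReal :=
  ⨆ (D : Set H) (f : ℕ → H) (_ : IsDictionary D ∧ IsQuasiOrthogonal D lam ∧ f 0 ∈ A1 D ∧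
    IsGreedy D f m), ENNReal.ofReal ‖f m‖

theorem general {t : ℕ} (ht : t = 3 ∨ t = 4) {lam θ : ℝ} (hlam : 4 * t / 3 ≤ lam) (hθ0 : 0 < θ)
    (hθ2 : θ ≤ 2) (hθ : 1 ≤ (1 - 1 / (t : ℝ)) ^ θ + (√((t : ℝ) - 1) / t) ^ θ)
    (H : Type) [NormedAddCommGroup H] [InnerProductSpace ℝ H] [CompleteSpace H]
    (hH : ¬ FiniteDimensional ℝ H) (m : ℕ) :
    ENNReal.ofReal ((t : ℝ) ^ (-(1 / 2 : ℝ)) * ((m : ℝ) + 1) ^ (-(1 / θ - 1 / 2))) ≤
      gamma H m lam := by
  have ht2 : 3 ≤ t := by omega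
  have ht2' : (3 : ℝ) ≤ t := by exact_mod_cast ht2
  have ht0 : (0 : ℝ) < t := by linarith
  have hs : √((t : ℝ) - 1) ^ 2 = t - 1 := Real.sq_sqrt (by linarith)
  have hs0 : 0 < √((t : ℝ) - 1) := Real.sqrt_pos.2 (by linarith)
  have h1 : (√((t : ℝ) - 1) / t) ^ 2 * t = 1 - 1 / t := by
    rw [div_pow, hs]
    field_simp
  have h2 : √((t : ℝ) - 1) / t ≤ 1 / 2 := by
    rw [div_le_iff₀ ht0]
    refine le_of_sq_le_sq ?_ (by linarith)
    rw [hs]
    nlinarith [sq_nonneg ((t : ℝ) - 2)]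
  have h3 : √((t : ℝ) - 1) / t * t ≤ 1 + (1 - 1 / (t : ℝ)) := by
    rw [div_mul_cancel₀ _ ht0.ne']
    rcases ht with rfl | rfl
    · refine le_of_sq_le_sq ?_ (by norm_num)
      rw [hs]
      norm_num
    · refine le_of_sq_le_sq ?_ (by norm_num)
      rw [hs]
      norm_num
  obtain ⟨D, f, hD, hQ, hf, hG, hm⟩ := example_exists ht2 rfl (by positivity) h2 h1 h3 hlam hθ hθ0
    hθ2 H hH m
  exact (ENNReal.ofReal_le_ofReal hm).trans
    (le_iSup_of_le D (le_iSup_of_le f (le_iSup_of_le ⟨hD, hQ, hf, hG⟩ le_rfl)))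

/-- The exponent: `31/100` for `λ < 16/3` and `6/25` for `λ ≥ 16/3`. -/
noncomputable def expo (lam : ℝ) : ℝ := if lam < 16 / 3 then 31 / 100 else 6 / 25

/-- In every infinite-dimensional real Hilbert space `H` and for every `λ ≥ 4`,
`γ(m, λ) ≥ (2/5) m ^ (-expo λ)` for all `m ≥ 1`, where `expo λ = 31/100` for `λ < 16/3` and
`expo λ = 6/25` for `λ ≥ 16/3`. -/
theorem result (lam : ℝ) (hlam : 4 ≤ lam) (H : Type) [NormedAddCommGroup H]
    [InnerProductSpace ℝ H] [CompleteSpace H] (hH : ¬ FiniteDimensional ℝ H) (m : ℕ)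
    (hm : 1 ≤ m) :
    ENNReal.ofReal (2 / 5 * (m : ℝ) ^ (-expo lam)) ≤ gamma H m lam := by
  rw [expo]
  split_ifs with h6
  · have h := general (t := 3) (Or.inl rfl) (lam := lam) (θ := 100 / 81)
      (by push_cast; linarith) (by norm_num) (by norm_num)
      (by
        have := num3
        norm_num at this ⊢
        exact this) H hH m
    refine (ENNReal.ofReal_le_ofReal ?_).trans h
    have hm1 : (1 : ℝ) ≤ m := by exact_mod_cast hm
    have hm0 : (0 : ℝ) < m := by linarith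
    have h1 : (2 * (m : ℝ)) ^ (-(31 / 100 : ℝ)) ≤ ((m : ℝ) + 1) ^ (-(31 / 100 : ℝ)) :=
      Real.rpow_le_rpow_of_nonpos (by positivity) (by linarith) (by norm_num)
    rw [Real.mul_rpow (by norm_num) hm0.le] at h1
    have h2 : (8 / 10 : ℝ) ≤ (2 : ℝ) ^ (-(31 / 100 : ℝ)) := by
      have h3 := le_rpow_of_pow_le (a := 8 / 10) (b := 1 / 2) (by norm_num) (by norm_num) 31
        (q := 100) (by norm_num) (by norm_num)
      rw [one_div, Real.inv_rpow (by norm_num), ← Real.rpow_neg (by norm_num)] at h3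
      exact_mod_cast h3
    have h4 : (1 / 2 : ℝ) ≤ ((3 : ℕ) : ℝ) ^ (-(1 / 2 : ℝ)) := by
      have h3 := le_rpow_of_pow_le (a := 1 / 2) (b := 1 / 3) (by norm_num) (by norm_num) 1
        (q := 2) (by norm_num) (by norm_num)
      rw [one_div (3 : ℝ), Real.inv_rpow (by norm_num), ← Real.rpow_neg (by norm_num)] at h3
      exact_mod_cast h3
    have h5 : (1 / (100 / 81) - 1 / 2 : ℝ) = 31 / 100 := by norm_num
    rw [h5]
    have h7 : 0 < (m : ℝ) ^ (-(31 / 100 : ℝ)) := Real.rpow_pos_of_pos hm0 _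
    calc 2 / 5 * (m : ℝ) ^ (-(31 / 100 : ℝ))
        = 1 / 2 * (8 / 10 * (m : ℝ) ^ (-(31 / 100 : ℝ))) := by ring
      _ ≤ ((3 : ℕ) : ℝ) ^ (-(1 / 2 : ℝ)) *
          ((2 : ℝ) ^ (-(31 / 100 : ℝ)) * (m : ℝ) ^ (-(31 / 100 : ℝ))) := by gcongr
      _ ≤ ((3 : ℕ) : ℝ) ^ (-(1 / 2 : ℝ)) * ((m : ℝ) + 1) ^ (-(31 / 100 : ℝ)) := by gcongr
  · have h := general (t := 4) (Or.inr rfl) (lam := lam) (θ := 50 / 37)
      (by push_cast; linarith) (by norm_num) (by norm_num)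
      (by
        have := num4
        norm_num at this ⊢
        exact this) H hH m
    refine (ENNReal.ofReal_le_ofReal ?_).trans h
    have hm1 : (1 : ℝ) ≤ m := by exact_mod_cast hm
    have hm0 : (0 : ℝ) < m := by linarith
    have h1 : (2 * (m : ℝ)) ^ (-(6 / 25 : ℝ)) ≤ ((m : ℝ) + 1) ^ (-(6 / 25 : ℝ)) :=
      Real.rpow_le_rpow_of_nonpos (by positivity) (by linarith) (by norm_num)
    rw [Real.mul_rpow (by norm_num) hm0.le] at h1
    have h2 : (8 / 10 : ℝ) ≤ (2 : ℝ) ^ (-(6 / 25 : ℝ)) := by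
      have h3 := le_rpow_of_pow_le (a := 8 / 10) (b := 1 / 2) (by norm_num) (by norm_num) 6
        (q := 25) (by norm_num) (by norm_num)
      rw [one_div, Real.inv_rpow (by norm_num), ← Real.rpow_neg (by norm_num)] at h3
      exact_mod_cast h3
    have h4 : (1 / 2 : ℝ) ≤ ((4 : ℕ) : ℝ) ^ (-(1 / 2 : ℝ)) := by
      have h3 := le_rpow_of_pow_le (a := 1 / 2) (b := 1 / 4) (by norm_num) (by norm_num) 1
        (q := 2) (by norm_num) (by norm_num)
      rw [one_div (4 : ℝ), Real.inv_rpow (by norm_num), ← Real.rpow_neg (by norm_num)] at h3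
      exact_mod_cast h3
    have h5 : (1 / (50 / 37) - 1 / 2 : ℝ) = 6 / 25 := by norm_num
    rw [h5]
    have h7 : 0 < (m : ℝ) ^ (-(6 / 25 : ℝ)) := Real.rpow_pos_of_pos hm0 _
    calc 2 / 5 * (m : ℝ) ^ (-(6 / 25 : ℝ))
        = 1 / 2 * (8 / 10 * (m : ℝ) ^ (-(6 / 25 : ℝ))) := by ring
      _ ≤ ((4 : ℕ) : ℝ) ^ (-(1 / 2 : ℝ)) *
          ((2 : ℝ) ^ (-(6 / 25 : ℝ)) * (m : ℝ) ^ (-(6 / 25 : ℝ))) := by gcongr
      _ ≤ ((4 : ℕ) : ℝ) ^ (-(1 / 2 : ℝ)) * ((m : ℝ) + 1) ^ (-(6 / 25 : ℝ)) := by gcongr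

end Pool.Agent.Results.MP_d42a57_an.LowerBounds
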